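import Mathlib

namespace Pool.Agent.N87

/-- `(√p + √(p-1))^(2j+1) = X √p + Y √(p-1)` -/
def XY (p : ℤ) : ℕ → ℤ × ℤ
  | 0 => (1, 1)
  | j + 1 => ((2 * p - 1) * (XY p j).1 + 2 * (p - 1) * (XY p j).2,
      2 * p * (XY p j).1 + (2 * p - 1) * (XY p j).2)

end Pool.Agent.N87
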