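import Mathlib
import Pool.Agent.N87.Sig

set_option autoImplicit false

namespace Pool.Agent.N87

theorem XY_zero (p : ℤ) : XY p 0 = (1, 1) := rfl

theorem XY_succ (p : ℤ) (j : ℕ) : XY p (j + 1) = ((2 * p - 1) * (XY p j).1 + 2 * (p - 1) * (XY p j).2,
      2 * p * (XY p j).1 + (2 * p - 1) * (XY p j).2) := rfl

theorem compl {p : ℤ} (hp : 2 ≤ p) : ∀ X Y : ℤ, 0 < X → 0 < Y → p*X^2 - (p-1)*Y^2 = 1 →
    ∃ j, X = (XY p j).1 ∧ Y = (XY p j).2 := by
  have key : ∀ n : ℕ, ∀ X Y : ℤ, X ≤ n → 0 < X → 0 < Y → p*X^2 - (p-1)*Y^2 = 1 →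
      ∃ j, X = (XY p j).1 ∧ Y = (XY p j).2 := by
    intro n
    induction n with
    | zero =>
      intro X Y h1 h2
      push_cast at h1
      omega
    | succ n ih =>
      intro X Y h1 h2 h3 h4
      push_cast at h1
      rcases eq_or_lt_of_le (show (1 : ℤ) ≤ X by omega) with hX | hX
      · refine ⟨0, ?_, ?_⟩
        · rw [← hX]; rfl
        · rw [← hX] at h4
          have h5 : (p - 1) * (Y - 1) * (Y + 1) = 0 := by linarith [h4, show (p - 1) * (Y - 1) * (Y + 1) = (p-1)*Y^2 - (p-1) by ring]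
          have h6 : (p - 1) * (Y + 1) ≠ 0 := by
            have : 0 < (p - 1) * (Y + 1) := mul_pos (by omega) (by omega)
            omega
          have h7 : Y - 1 = 0 := by
            rcases mul_eq_zero.mp (show ((p - 1) * (Y + 1)) * (Y - 1) = 0 by linarith [h5, show ((p - 1) * (Y + 1)) * (Y - 1) = (p - 1) * (Y - 1) * (Y + 1) by ring]) with h | h
            · exact absurd h h6
            · exact h
          show Y = 1
          omega
      · have hYX : X < Y := by
          by_contra hcon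
          push Not at hcon
          have e1 : (p - 1) * (Y ^ 2 - X ^ 2) = X ^ 2 - 1 := by linarith [h4]
          have e2 : Y ^ 2 ≤ X ^ 2 := by nlinarith
          have e3 : (p - 1) * (Y ^ 2 - X ^ 2) ≤ 0 := mul_nonpos_of_nonneg_of_nonpos (by omega) (by linarith)
          nlinarith
        have hY4 : 4 * p < Y ^ 2 := by
          have e1 : Y ^ 2 - 1 = p * (Y ^ 2 - X ^ 2) := by linarith [h4]
          have e2 : 5 ≤ Y ^ 2 - X ^ 2 := by nlinarith
          nlinarith
        have hX' : 0 < (2 * p - 1) * X - 2 * (p - 1) * Y := by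
          by_contra hcon
          push Not at hcon
          have e1 : ((2 * p - 1) * X) ^ 2 ≤ (2 * (p - 1) * Y) ^ 2 := by
            apply pow_le_pow_left₀
            · exact mul_nonneg (by omega) (by omega)
            · linarith
          have e2 : ((2 * p - 1) * X) ^ 2 - (2 * (p - 1) * Y) ^ 2 = X ^ 2 + 4 * (p - 1) := by
            linear_combination 4 * (p - 1) * h4
          nlinarith
        have hY' : 0 < (2 * p - 1) * Y - 2 * p * X := by
          by_contra hcon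
          push Not at hcon
          have e1 : ((2 * p - 1) * Y) ^ 2 ≤ (2 * p * X) ^ 2 := by
            apply pow_le_pow_left₀
            · exact mul_nonneg (by omega) (by omega)
            · linarith
          have e2 : ((2 * p - 1) * Y) ^ 2 - (2 * p * X) ^ 2 = Y ^ 2 - 4 * p := by
            linear_combination (- 4 * p) * h4
          linarith
        have hlt : (2 * p - 1) * X - 2 * (p - 1) * Y ≤ n := by
          have : (p - 1) * X < (p - 1) * Y := mul_lt_mul_of_pos_left hYX (by omega)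
          linarith
        obtain ⟨j, hj1, hj2⟩ := ih _ _ hlt hX' hY' (by linear_combination h4)
        refine ⟨j + 1, ?_, ?_⟩
        · rw [XY_succ, ← hj1, ← hj2]
          ring
        · rw [XY_succ, ← hj1, ← hj2]
          ring
  intro X Y h1 h2 h3
  exact key X.toNat X Y (by omega) h1 h2 h3

private def UV (p : ℤ) : ℕ → ℤ × ℤ
  | 0 => (1, 0)
  | m + 1 => ((2 * p - 1) * (UV p m).1 + 2 * p * (p - 1) * (UV p m).2,
      2 * (UV p m).1 + (2 * p - 1) * (UV p m).2)

private theorem UV_succ (p : ℤ) (m : ℕ) : UV p (m + 1) = ((2 * p - 1) * (UV p m).1 + 2 * p * (p - 1) * (UV p m).2,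
      2 * (UV p m).1 + (2 * p - 1) * (UV p m).2) := rfl

private theorem XY_add (p : ℤ) (j m : ℕ) :
    (XY p (j + m)).1 = (UV p m).1 * (XY p j).1 + (p - 1) * (UV p m).2 * (XY p j).2 ∧
    (XY p (j + m)).2 = (UV p m).1 * (XY p j).2 + p * (UV p m).2 * (XY p j).1 := by
  induction m with
  | zero =>
    constructor
    · show (XY p j).1 = 1 * (XY p j).1 + (p - 1) * 0 * (XY p j).2
      ring
    · show (XY p j).2 = 1 * (XY p j).2 + p * 0 * (XY p j).1
      ring
  | succ m ih =>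
    obtain ⟨h1, h2⟩ := ih
    rw [← add_assoc, XY_succ, UV_succ]
    constructor
    · show (2 * p - 1) * (XY p (j + m)).1 + 2 * (p - 1) * (XY p (j + m)).2 = _
      rw [h1, h2]
      ring
    · show 2 * p * (XY p (j + m)).1 + (2 * p - 1) * (XY p (j + m)).2 = _
      rw [h1, h2]
      ring

private theorem UV_odd (p : ℤ) (i : ℕ) :
    (UV p (2 * i + 1)).1 = p * (XY p i).1 ^ 2 + (p - 1) * (XY p i).2 ^ 2 ∧
    (UV p (2 * i + 1)).2 = 2 * (XY p i).1 * (XY p i).2 := by
  induction i with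
  | zero =>
    constructor
    · show (2 * p - 1) * 1 + 2 * p * (p - 1) * 0 = p * 1 ^ 2 + (p - 1) * 1 ^ 2
      ring
    · show 2 * 1 + (2 * p - 1) * 0 = (2 * 1 * 1 : ℤ)
      ring
  | succ i ih =>
    obtain ⟨h1, h2⟩ := ih
    have e : 2 * (i + 1) + 1 = (2 * i + 1) + 1 + 1 := by ring
    rw [e, UV_succ, UV_succ, XY_succ]
    constructor
    · simp only
      rw [h1, h2]
      ring
    · simp only
      rw [h1, h2]
      ring

theorem dvd2 (p : ℤ) (i k : ℕ) : (XY p i).1 ∣ (XY p (i+(2*i+1)*k)).1 := by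
  induction k with
  | zero => exact dvd_rfl
  | succ k ih =>
    have e : i + (2 * i + 1) * (k + 1) = (i + (2 * i + 1) * k) + (2 * i + 1) := by ring
    rw [e, (XY_add p (i + (2 * i + 1) * k) (2 * i + 1)).1, (UV_odd p i).2]
    apply dvd_add
    · exact Dvd.dvd.mul_left ih _
    · exact ⟨(p - 1) * 2 * (XY p i).2 * (XY p (i + (2 * i + 1) * k)).2, by ring⟩

theorem modp2' (p : ℤ) (j : ℕ) : p^2 ∣ 3*(XY p j).1 - (-1)^j*(2*j+1)*(3-2*j*(j+1)*p) ∧
    p^2 ∣ (XY p j).2 - (-1)^j*(1-2*j*(j+1)*p) ∧ p ∣ (XY p j).1 - (-1)^j*(2*j+1) := by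
  induction j with
  | zero =>
    rw [XY_zero]
    refine ⟨?_, ?_, ?_⟩
    · simp
    · simp
    · simp
  | succ j ih =>
    obtain ⟨⟨a, ha⟩, ⟨b, hb⟩, ⟨c, hc⟩⟩ := ih
    rw [XY_succ]
    have ha' : 3 * (XY p j).1 = (-1)^j*(2*j+1)*(3-2*j*(j+1)*p) + p^2*a := by linarith
    have hb' : (XY p j).2 = (-1)^j*(1-2*j*(j+1)*p) + p^2*b := by linarith
    have hc' : (XY p j).1 = (-1)^j*(2*j+1) + p*c := by linarith
    refine ⟨⟨(-1)^j * (-8*j*(j+1)*(j+2)) + (2*p-1)*a + 6*(p-1)*b, ?_⟩,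
      ⟨2*c + (-1)^j*(-4*j*(j+1)) + (2*p-1)*b, ?_⟩, ⟨2 * (XY p j).1 + 2 * (XY p j).2 - c - 2 * (p * b - (-1)^j*(2*j*(j+1))), ?_⟩⟩
    · simp only
      push_cast
      rw [pow_succ]
      linear_combination (2*p-1) * ha' + 6*(p-1) * hb'
    · simp only
      push_cast
      rw [pow_succ]
      linear_combination 2*p*hc' + (2*p-1)*hb'
    · simp only
      push_cast
      rw [pow_succ]
      linear_combination (-1 : ℤ) * hc' - 2 * hb'

theorem modp2 (p : ℤ) (j : ℕ) : p^2 ∣ 3*(XY p j).1 - (-1)^j*(2*j+1)*(3-2*j*(j+1)*p) ∧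
    p^2 ∣ (XY p j).2 - (-1)^j*(1-2*j*(j+1)*p) := ⟨(modp2' p j).1, (modp2' p j).2.1⟩

end Pool.Agent.N87
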