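import Mathlib
import Pool.Agent.N87.T33

set_option autoImplicit false

namespace Pool.Agent.N87

private theorem nine (j : ℕ) : (459 : ℤ) ∣ (XY 3 (j + 9)).1 + (XY 3 j).1 := by
  have e : (XY 3 (j + 9)).1 = 456335045 * (XY 3 j).1 + 2 * 186298002 * (XY 3 j).2 := by
    have h : ∀ m, XY 3 (m + 1) = (5 * (XY 3 m).1 + 4 * (XY 3 m).2, 6 * (XY 3 m).1 + 5 * (XY 3 m).2) := by
      intro m
      rw [XY_succ]
      norm_num
    rw [h (j + 8), h (j + 7), h (j + 6), h (j + 5), h (j + 4), h (j + 3), h (j + 2), h (j + 1), h j]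
    simp only
    ring
  rw [e]
  exact ⟨994194 * (XY 3 j).1 + 2 * 405878 * (XY 3 j).2, by ring⟩

theorem three (j : ℕ) : (27:ℤ) ∣ (XY 3 j).1 → (17:ℤ) ∣ (XY 3 j).1 := by
  induction j using Nat.strong_induction_on with
  | _ j ih =>
    rcases Nat.lt_or_ge j 9 with hj | hj
    · intro h
      interval_cases j <;> revert h <;> simp only [XY] <;> norm_num
    · obtain ⟨i, rfl⟩ : ∃ i, j = i + 9 := ⟨j - 9, by omega⟩
      intro h
      obtain ⟨c, hc⟩ := nine i
      obtain ⟨d, hd⟩ := h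
      have h1 : (27 : ℤ) ∣ (XY 3 i).1 := ⟨17 * c - d, by linarith⟩
      obtain ⟨e, he⟩ := ih i (by omega) h1
      exact ⟨27 * c - e, by linarith⟩

private theorem pos (p : ℤ) (hp : 2 ≤ p) (j : ℕ) : 1 ≤ (XY p j).1 ∧ 1 ≤ (XY p j).2 := by
  induction j with
  | zero => exact ⟨le_rfl, le_rfl⟩
  | succ j ih =>
    obtain ⟨h1, h2⟩ := ih
    rw [XY_succ]
    constructor
    · show 1 ≤ (2 * p - 1) * (XY p j).1 + 2 * (p - 1) * (XY p j).2
      nlinarith
    · show 1 ≤ 2 * p * (XY p j).1 + (2 * p - 1) * (XY p j).2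
      nlinarith

private theorem big (p : ℤ) (hp : 2 ≤ p) (j : ℕ) : p < (XY p (j + 1)).1 := by
  obtain ⟨h1, h2⟩ := pos p hp j
  rw [XY_succ]
  show p < (2 * p - 1) * (XY p j).1 + 2 * (p - 1) * (XY p j).2
  nlinarith

theorem noSq {p q a : ℕ} (hp : p.Prime) (hp3 : 3 ≤ p) (ha : 3 ≤ a) (h : (p-1)*q^2+1 = p^(2*a+1)) : False := by
  have hq : 0 < q := by
    rcases Nat.eq_zero_or_pos q with h0 | h0
    · exfalso
      rw [h0] at h
      have : 1 < p ^ (2 * a + 1) := Nat.one_lt_pow (by omega) (by omega)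
      simp at h
      omega
    · exact h0
  have hpz : Prime (p : ℤ) := Nat.prime_iff_prime_int.mp hp
  have hz : (p : ℤ) * ((p : ℤ) ^ a) ^ 2 - ((p : ℤ) - 1) * (q : ℤ) ^ 2 = 1 := by
    have h1 : (((p - 1 : ℕ) : ℤ)) * (q : ℤ) ^ 2 + 1 = (p : ℤ) ^ (2 * a + 1) := by exact_mod_cast h
    rw [Nat.cast_sub (by omega)] at h1
    push_cast at h1
    rw [← pow_mul]
    have e : (p : ℤ) ^ (2 * a + 1) = p * (p : ℤ) ^ (a * 2) := by
      rw [pow_succ, mul_comm a 2, mul_comm]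
    linarith
  have hpa : (0 : ℤ) < (p : ℤ) ^ a := by positivity
  obtain ⟨j, hj1, -⟩ := compl (p := (p : ℤ)) (by exact_mod_cast (by omega : 2 ≤ p)) _ _ hpa (by exact_mod_cast hq) hz
  have hdiv : (p : ℤ) ∣ 2 * (j : ℤ) + 1 := by
    have h1 := (modp2' (p : ℤ) j).2.2
    have h2 : (p : ℤ) ∣ (XY (p : ℤ) j).1 := by
      rw [← hj1]
      exact dvd_pow_self _ (by omega)
    have h3 : (p : ℤ) ∣ (-1) ^ j * (2 * (j : ℤ) + 1) := (dvd_sub_right h2).mp h1
    rcases neg_one_pow_eq_or ℤ j with hs | hs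
    · rw [hs, one_mul] at h3
      exact h3
    · rw [hs] at h3
      have h4 : (p : ℤ) ∣ -(2 * (j : ℤ) + 1) := by
        rw [show -(2 * (j : ℤ) + 1) = -1 * (2 * (j : ℤ) + 1) by ring]
        exact h3
      exact (dvd_neg).mp h4
  rcases eq_or_lt_of_le hp3 with hp3' | hp3'
  · subst hp3'
    have h27 : (27 : ℤ) ∣ (XY 3 j).1 := by
      have : (XY 3 j).1 = 3 ^ a := by
        rw [show (3 : ℤ) = ((3 : ℕ) : ℤ) by norm_num]
        exact hj1.symm
      rw [this, show (27 : ℤ) = 3 ^ 3 by norm_num]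
      exact pow_dvd_pow 3 ha
    have h17 := three j h27
    have : (XY 3 j).1 = 3 ^ a := by
      rw [show (3 : ℤ) = ((3 : ℕ) : ℤ) by norm_num]
      exact hj1.symm
    rw [this] at h17
    have h5 : (17 : ℤ) ∣ 3 := by
      have hp17 : Prime (17 : ℤ) := by norm_num
      exact hp17.dvd_of_dvd_pow h17
    norm_num at h5
  · -- p ≥ 5
    have hodd : p % 2 = 1 := by
      rcases hp.eq_two_or_odd with h2 | h2
      · omega
      · exact h2
    obtain ⟨i, hi⟩ : ∃ i, p = 2 * i + 1 := ⟨p / 2, by omega⟩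
    have hdn : p ∣ 2 * j + 1 := by exact_mod_cast hdiv
    obtain ⟨m, hm⟩ := hdn
    have hmodd : m % 2 = 1 := by
      have h1 : (2 * j + 1) % 2 = 1 := by omega
      rw [hm, Nat.mul_mod, hodd] at h1
      omega
    obtain ⟨k, hk⟩ : ∃ k, m = 2 * k + 1 := ⟨m / 2, by omega⟩
    have hjk : j = i + (2 * i + 1) * k := by
      rw [hi, hk] at hm
      have : (2 * i + 1) * (2 * k + 1) = 2 * ((2 * i + 1) * k) + (2 * i + 1) := by ring
      rw [this] at hm
      omega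
    have hd := dvd2 (p : ℤ) i k
    rw [← hjk, ← hj1] at hd
    have hpos := pos (p : ℤ) (by exact_mod_cast (by omega : 2 ≤ p)) i
    obtain ⟨x, hx⟩ : ∃ x : ℕ, (XY (p : ℤ) i).1 = x := ⟨(XY (p : ℤ) i).1.toNat, by omega⟩
    rw [hx] at hd
    have hd' : x ∣ p ^ a := by exact_mod_cast hd
    obtain ⟨b, -, hb⟩ := (Nat.dvd_prime_pow hp).mp hd'
    have hi1 : 1 ≤ i := by omega
    have hbig := big (p : ℤ) (by exact_mod_cast (by omega : 2 ≤ p)) (i - 1)
    rw [Nat.sub_add_cancel hi1, hx] at hbig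
    have hbig' : p < x := by exact_mod_cast hbig
    have hb2 : 2 ≤ b := by
      by_contra hcon
      have hb' : b = 0 ∨ b = 1 := by omega
      rcases hb' with h0 | h0
      · rw [h0] at hb
        simp at hb
        omega
      · rw [h0] at hb
        simp at hb
        omega
    have h1 := (modp2' (p : ℤ) i).1
    have hpi : 2 * (i : ℤ) + 1 = p := by
      rw [hi]; push_cast; ring
    rw [hpi, hx] at h1
    have h2 : (p : ℤ) ^ 2 ∣ 3 * (x : ℤ) := by
      apply Dvd.dvd.mul_left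
      rw [hb]
      push_cast
      exact pow_dvd_pow _ hb2
    have h3 : (p : ℤ) ^ 2 ∣ (-1) ^ i * (p : ℤ) * (3 - 2 * i * (i + 1) * p) := (dvd_sub_right h2).mp h1
    have h4 : (p : ℤ) ^ 2 ∣ 3 * p := by
      obtain ⟨c, hc⟩ := h3
      refine ⟨(-1) ^ i * c + 2 * i * (i + 1), ?_⟩
      have hs : ((-1 : ℤ) ^ i) * (-1) ^ i = 1 := by
        rw [← mul_pow]
        norm_num
      have e1 : (-1 : ℤ) ^ i * ((-1) ^ i * (p : ℤ) * (3 - 2 * i * (i + 1) * p)) = (-1) ^ i * ((p : ℤ) ^ 2 * c) := by rw [hc]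
      have e2 : (-1 : ℤ) ^ i * ((-1) ^ i * (p : ℤ) * (3 - 2 * i * (i + 1) * p)) = (p : ℤ) * (3 - 2 * i * (i + 1) * p) := by
        rw [← mul_assoc, ← mul_assoc, hs, one_mul]
      rw [e2] at e1
      linear_combination e1
    have h5 : (p : ℤ) ∣ 3 := by
      rw [pow_two, mul_comm 3] at h4
      exact (mul_dvd_mul_iff_left hpz.ne_zero).mp h4
    have h6 : p ∣ 3 := by exact_mod_cast h5
    have := Nat.le_of_dvd (by norm_num) h6
    omega

end Pool.Agent.N87
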